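import Pool.Agent.QUD.StmtsXU

/-!
# Row BAX of squad QUD (MP_5b0138_an): comparison of the germs with an arbitrary polygon
-/

set_option autoImplicit false

namespace Pool.Agent.QUD.H81

open Pool.Agent.QUD

/-- **BAX** -/
theorem bax : BayStmt → Xm1Stmt → BaxStmt := by
  intro hBay hXm1 L l g r A B H J hL hK hoA hlen hA hB hH hJ hS
  have hOk : OkL A B H := ⟨hA, hB, hH⟩
  have h := hBay L l g r A B H 0 J hL hK hoA hOk (Or.inl rfl) hJ
    (by simpa only [Pi.zero_apply, add_zero] using hS)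
  obtain ⟨hJ0, hg, hr, hAB, hwt, hct⟩ := h.2 rfl
  obtain ⟨hx1, hx2⟩ := hXm1 l A B H hK hOk hwt hct
  refine ⟨hJ0, hg, hr, ?_, ?_⟩
  · intro hl
    subst hl
    have hB0 := hx1 (fun p hp => absurd hp List.not_mem_nil)
    rcases hAB with ⟨_, hA0⟩ | ⟨p, q, hp, _⟩
    · exact ⟨hA0, hB0.1, hB0.2⟩
    · exact absurd hp (by simp [oA])
  · intro p hp
    by_cases ho : obt p
    · have hpo : p ∈ oA l := List.mem_filter.mpr ⟨hp, by simpa using ho⟩
      refine ⟨fun _ => ?_, fun hn => absurd ho hn, fun hn => absurd ho hn⟩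
      rcases hAB with ⟨h0, _⟩ | ⟨p', q, hp', hA', hq⟩
      · rw [h0] at hpo
        exact absurd hpo List.not_mem_nil
      · rw [hp'] at hpo
        have hpp : p = p' := List.mem_singleton.mp hpo
        subst hpp
        exact ⟨q, by rw [hA']; exact List.mem_singleton.mpr rfl, hq⟩
    · exact hx2 hlen p hp ho A

end Pool.Agent.QUD.H81
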