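import Pool.Agent.QUD.StmtsL
import Pool.Agent.Helper5_PM.M092

set_option autoImplicit false

/-!
# Row CYC of squad QUD (MP_5b0138_an): the sides of a convex quadrilateral
-/

namespace Pool.Agent.QUD.H81

open MeasureTheory Complex Filter Topology ProbabilityTheory Pool.Agent.H16Iso Pool.Agent.H62T
open Pool.Agent.AEU Pool.Agent.XQ Pool.Agent.QUD
open Pool.Agent.H62T.H85 (nrm off)

/-- The common point of two lines. -/
lemma vx_eq {s t : HP} {x : ℂ} (hd : dt s.1 t.1 ≠ 0) (h1 : ip s.1 x = s.2)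
    (h2 : ip t.1 x = t.2) : vx s t = x := by
  have h3 : (dt s.1 t.1 : ℂ) ≠ 0 := by exact_mod_cast hd
  unfold vx
  rw [div_eq_iff h3, ← h1, ← h2]
  apply Complex.ext
  · simp only [ip, dt, Complex.mul_re, Complex.mul_im, Complex.sub_re, Complex.sub_im,
      Complex.ofReal_re, Complex.ofReal_im, Complex.I_re, Complex.I_im]
    ring
  · simp only [ip, dt, Complex.mul_re, Complex.mul_im, Complex.sub_re, Complex.sub_im,
      Complex.ofReal_re, Complex.ofReal_im, Complex.I_re, Complex.I_im]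
    ring

section

variable {n : ℕ} [NeZero n]

/-- The side number `i`. -/
noncomputable def sd (v : Fin n → ℂ) (i : Fin n) : HP := (nrm v i, off v i)

lemma dt_pos (hn : 3 ≤ n) {v : Fin n → ℂ} (hv : H62T.H85.CC v) (i : Fin n) :
    0 < dt (sd v i).1 (sd v (i + 1)).1 := by
  have e1 : ∀ j, nrm v j = ((1 / ‖H62T.H85.Ev v j‖ : ℝ) : ℂ) * (-I * H62T.H85.Ev v j) := by
    intro j
    unfold nrm
    push_cast
    ring
  have e2 : ∀ (r s : ℝ) (z w : ℂ), dt ((r : ℂ) * (-I * z)) ((s : ℂ) * (-I * w)) =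
      r * s * dt z w := by
    intro r s z w
    simp only [dt, Complex.mul_re, Complex.mul_im, Complex.neg_re, Complex.neg_im,
      Complex.ofReal_re, Complex.ofReal_im, Complex.I_re, Complex.I_im]
    ring
  have e3 : dt (H62T.H85.Ev v i) (H62T.H85.Ev v (i + 1)) =
      dt (H62T.H85.Ev v i) (v (i + 1 + 1) - v i) := by
    unfold H62T.H85.Ev
    simp only [dt, Complex.sub_re, Complex.sub_im]
    ring
  have h1 := H62T.H85.side_pos hn hv i (i + 1 + 1) (H62T.H85.succ_ne hn i).2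
    (H62T.H85.succ_ne hn (i + 1)).1
  have h2 := norm_pos_iff.2 (H62T.H85.Ev_ne hn hv i)
  have h3 := norm_pos_iff.2 (H62T.H85.Ev_ne hn hv (i + 1))
  show 0 < dt (nrm v i) (nrm v (i + 1))
  rw [e1, e1, e2, e3]
  positivity

lemma vx_sd (hn : 3 ≤ n) {v : Fin n → ℂ} (hv : H62T.H85.CC v) (i : Fin n) :
    vx (sd v i) (sd v (i + 1)) = v (i + 1) :=
  vx_eq (dt_pos hn hv i).ne' (H62T.H85.off_succ v i) rfl

lemma sd_inj (hn : 3 ≤ n) {v : Fin n → ℂ} (hv : H62T.H85.CC v) : Function.Injective (sd v) :=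
  H62T.H85.side_inj hn hv

lemma vxof_sd (hn : 3 ≤ n) {v : Fin n → ℂ} (hv : H62T.H85.CC v) (i : Fin n) :
    VxOf (sides (nrm v) (off v)) (sd v i) (sd v (i + 1)) (v (i + 1)) where
  cl := by
    intro s hs
    obtain ⟨j, rfl⟩ := H29.mem_sides.1 hs
    exact H62T.H85.le_off hn hv j (i + 1)
  mem₁ := H29.mem_sides.2 ⟨i, rfl⟩
  mem₂ := H29.mem_sides.2 ⟨i + 1, rfl⟩
  ne := fun h => (H62T.H85.succ_ne hn i).1 (sd_inj hn hv h).symm
  on₁ := H62T.H85.off_succ v i
  on₂ := rfl

end

/-- The proof of row CYC. -/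
theorem cyc : CycStmt := by
  classical
  intro v hv
  have hv' : H62T.H85.CC v := hv
  have hn : 3 ≤ 4 := by norm_num
  have hX : sides (nrm v) (off v) = {sd v 0, sd v 1, sd v 2, sd v 3} := by
    ext s
    rw [H29.mem_sides]
    simp only [Finset.mem_insert, Finset.mem_singleton]
    constructor
    · rintro ⟨i, rfl⟩
      fin_cases i
      · exact Or.inl rfl
      · exact Or.inr (Or.inl rfl)
      · exact Or.inr (Or.inr (Or.inl rfl))
      · exact Or.inr (Or.inr (Or.inr rfl))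
    · rintro (rfl | rfl | rfl | rfl)
      · exact ⟨0, rfl⟩
      · exact ⟨1, rfl⟩
      · exact ⟨2, rfl⟩
      · exact ⟨3, rfl⟩
  have i0 : (0 : Fin 4) + 1 = 1 := rfl
  have i1 : (1 : Fin 4) + 1 = 2 := rfl
  have i2 : (2 : Fin 4) + 1 = 3 := rfl
  have i3 : (3 : Fin 4) + 1 = 0 := rfl
  have v0 := vx_sd hn hv' 0
  have v1 := vx_sd hn hv' 1
  have v2 := vx_sd hn hv' 2
  have v3 := vx_sd hn hv' 3
  have w0 := vxof_sd hn hv' 0
  have w1 := vxof_sd hn hv' 1
  have w2 := vxof_sd hn hv' 2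
  have w3 := vxof_sd hn hv' 3
  have d0 := dt_pos hn hv' 0
  have d1 := dt_pos hn hv' 1
  have d2 := dt_pos hn hv' 2
  have d3 := dt_pos hn hv' 3
  rw [i0] at v0 w0 d0
  rw [i1] at v1 w1 d1
  rw [i2] at v2 w2 d2
  rw [i3] at v3 w3 d3
  rw [hX] at w0 w1 w2 w3
  have inj := sd_inj hn hv'
  have hne : ∀ i j : Fin 4, i ≠ j → sd v i ≠ sd v j := fun i j hij h => hij (inj h)
  refine ⟨sd v 0, sd v 1, sd v 2, sd v 3, ?_, ?_, v3, v0, v1, v2⟩
  · refine
      { ne := ⟨hne _ _ (by decide), hne _ _ (by decide), hne _ _ (by decide), hne _ _ (by decide),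
          hne _ _ (by decide), hne _ _ (by decide)⟩
        pg := ?_
        ab := d0
        bc := d1
        cd := d2
        da := d3
        vab := by rw [v0]; exact w0
        vbc := by rw [v1]; exact w1
        vcd := by rw [v2]; exact w2
        vda := by rw [v3]; exact w3 }
    rw [← hX]
    exact H29.pg_sides hn hv' (H62T.H85.side_inj hn hv')
  · rw [← hX]
    have h1 : opn (sides (nrm v) (off v)) = H62T.Poly (nrm v) (off v) := by
      ext x
      unfold opn sides H62T.Poly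
      simp only [Finset.mem_image, Finset.mem_univ, true_and, Set.mem_ofPred_eq,
        forall_exists_index, forall_apply_eq_imp_iff]
    rw [h1]
    exact (H62T.H85.poly_eq hn hv').symm

end Pool.Agent.QUD.H81
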