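import Pool.Agent.QUD.StmtsRB

set_option autoImplicit false

/-!
# Row FN1 of squad QUD (MP_5b0138_an): facing pairs at the first level of both
-/

namespace Pool.Agent.QUD.H81

open MeasureTheory Complex Filter Topology Pool.Agent.H16Iso Pool.Agent.H62T
open Pool.Agent.AEU Pool.Agent.XQ Pool.Agent.QUD
open Pool.Agent.H1Gen (det CCW poly)

/-- **FN1.** -/
theorem fn1 (hbri : BriStmt) (hfpb : FpbStmt) (hrf1 : Rf1Stmt) : Fn1Stmt := by
  intro hdc hsu P Q L hP hQ hL hBP hBQ hsp hfP hfQ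
  obtain ⟨a, b, c, d, hC, rfl⟩ := hP
  obtain ⟨a', b', c', d', hC', rfl⟩ := hQ
  obtain ⟨har, hpm, hrec⟩ := hbri a b c d a' b' c' d' hC hC' hsp
  exact hrf1 hdc hsu a b c d a' b' c' d' L hC hC' hL (hfpb a b c d L hC hL hBP hfP)
    (hfpb a' b' c' d' L hC' hL hBQ hfQ) har hpm hrec hsp

end Pool.Agent.QUD.H81
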