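import Pool.Agent.QUD.StmtsRB

set_option autoImplicit false

/-!
# Row RF1 of squad QUD (MP_5b0138_an): facing sides at the same distance
-/

namespace Pool.Agent.QUD.H81

open MeasureTheory Complex Filter Topology Pool.Agent.H16Iso Pool.Agent.H62T
open Pool.Agent.AEU Pool.Agent.XQ Pool.Agent.QUD
open Pool.Agent.H1Gen (det CCW poly)

/-- **RF1.** -/
theorem rf1 (_hcgr : CgrStmt) (hvtx : VtxStmt) (hfcs : FcsStmt) (hfxc : FxcStmt) : Rf1Stmt := by
  intro hdc hsu a b c d a' b' c' d' L hC hC' _hL hF hF' har hpm hrec hsp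
  obtain ⟨hv, ho, -⟩ := hvtx a b c d hC
  obtain ⟨hw, ho', -⟩ := hvtx a' b' c' d' hC'
  rcases hfcs hsu (vv a b c d) (vv a' b' c' d') (L / 2) hv hw har hpm hrec hF hF' with h | h
  · rw [ho, ho']
    exact h
  · refine hfxc hdc _ _ (Or.inr ?_) hsp
    rw [ho, ho']
    exact h

end Pool.Agent.QUD.H81
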