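import Pool.Agent.QUD.StmtsL

set_option autoImplicit false

/-!
# Row UBD of squad QUD (MP_5b0138_an): upper bounds for the germs
-/

namespace Pool.Agent.QUD.H81

open MeasureTheory Complex Filter Topology ProbabilityTheory Pool.Agent.H16Iso Pool.Agent.H62T
open Pool.Agent.AEU Pool.Agent.XQ Pool.Agent.QUD

/-- `cos (b π) ≠ 1` for `1 < b < 2`. -/
lemma cos_ne {b : ℝ} (h1 : 1 < b) (h2 : b < 2) : Real.cos (b * Real.pi) ≠ 1 := by
  intro h
  have hp := Real.pi_pos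
  have h3 : Real.cos (b * Real.pi - 2 * Real.pi) = 1 := by rw [Real.cos_sub_two_pi, h]
  rw [Real.cos_eq_one_iff_of_lt_of_lt] at h3
  · nlinarith
  · nlinarith
  · nlinarith

/-- Upper bound from a leading term. -/
lemma bound_of_lead {f : ℝ → ℝ} {L p c : ℝ} (hp : 0 ≤ p)
    (h : Tendsto (fun κ : ℝ => f κ * (Real.exp (L * κ) * κ ^ p)) atTop (𝓝 c)) :
    ∃ C κ0 : ℝ, 0 < κ0 ∧ ∀ κ : ℝ, κ0 ≤ κ → |f κ| ≤ C * Real.exp (-(L * κ)) := by
  have h1 : ∀ᶠ κ in atTop, |f κ * (Real.exp (L * κ) * κ ^ p)| < |c| + 1 :=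
    h.abs.eventually_lt_const (by linarith)
  obtain ⟨κ0, hκ0⟩ := eventually_atTop.1 (h1.and (eventually_ge_atTop 1))
  refine ⟨|c| + 1, max κ0 1, lt_of_lt_of_le one_pos (le_max_right _ _), fun κ hκ => ?_⟩
  obtain ⟨h2, h3⟩ := hκ0 κ ((le_max_left _ _).trans hκ)
  have h4 : (1 : ℝ) ≤ κ ^ p := Real.one_le_rpow h3 hp
  rw [abs_mul, abs_of_pos (by positivity : 0 < Real.exp (L * κ) * κ ^ p)] at h2
  have h5 : |f κ| * Real.exp (L * κ) ≤ |c| + 1 := by
    refine le_trans ?_ h2.le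
    have h6 : Real.exp (L * κ) ≤ Real.exp (L * κ) * κ ^ p :=
      le_mul_of_one_le_right (Real.exp_pos _).le h4
    gcongr
  rw [Real.exp_neg, ← div_eq_mul_inv, le_div_iff₀ (Real.exp_pos _)]
  exact h5

lemma bnd_B {L y : ℝ} (η : ℝ) (hL : 0 < L) (h1 : Real.pi / 2 < y) (h2 : y < Real.pi) :
    ∃ C κ0 : ℝ, 0 < κ0 ∧ ∀ κ : ℝ, κ0 ≤ κ → |germB (L / 2) y η κ| ≤ C * Real.exp (-(L * κ)) := by
  have hp := Real.pi_pos
  have hy : 0 < y := by linarith
  have hb : Real.cos (Real.pi / y * Real.pi) ≠ 1 := by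
    apply cos_ne
    · rw [lt_div_iff₀ hy]
      linarith
    · rw [div_lt_iff₀ hy]
      linarith
  have h := AEU.H12.lead_TB (d := L / 2) (b := Real.pi / y) η (by linarith) hb
  unfold AEU.H12.Lead at h
  rw [show 2 * (L / 2) = L by ring] at h
  exact bound_of_lead (f := germB (L / 2) y η) (by norm_num) h

lemma bnd_A {L x y : ℝ} (hL : 0 < L) (h1 : Real.pi / 2 < x) (h2 : x < Real.pi)
    (h3 : Real.pi / 2 < y) (h4 : y < Real.pi) :
    ∃ C κ0 : ℝ, 0 < κ0 ∧ ∀ κ : ℝ, κ0 ≤ κ →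
      |germA (L / 2) (Real.pi - x) (Real.pi - y) κ| ≤ C * Real.exp (-(L * κ)) := by
  have hp := Real.pi_pos
  have key : ∀ z : ℝ, Real.pi / 2 < z → z < Real.pi → 0 < Real.pi / z ∧
      Real.cos (Real.pi / z * Real.pi) ≠ 1 := by
    intro z hz1 hz2
    have hz : 0 < z := by linarith
    refine ⟨by positivity, ?_⟩
    apply cos_ne
    · rw [lt_div_iff₀ hz]
      linarith
    · rw [div_lt_iff₀ hz]
      linarith
  obtain ⟨a1, a2⟩ := key x h1 h2
  obtain ⟨b1, b2⟩ := key y h3 h4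
  have h := AEU.H12.lead_TA (l := L / 2) (by linarith) a1 b1 a2 b2
  unfold AEU.H12.Lead at h
  rw [show 2 * (L / 2) = L by ring] at h
  obtain ⟨C, κ0, h5, h6⟩ := bound_of_lead (by norm_num) h
  refine ⟨1 / Real.pi ^ 2 * C, κ0, h5, fun κ hκ => ?_⟩
  have h7 := h6 κ hκ
  unfold germA
  rw [show Real.pi - (Real.pi - x) = x by ring, show Real.pi - (Real.pi - y) = y by ring, abs_mul,
    abs_of_pos (by positivity : (0 : ℝ) < 1 / Real.pi ^ 2), mul_assoc]
  exact mul_le_mul_of_nonneg_left h7 (by positivity)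

/-- The proof of row UBD. -/
theorem ubd : UbdStmt := by
  intro L x y hL hx0 hx1 hy0 hy1 hxy
  have hp := Real.pi_pos
  have half : ∀ z η : ℝ, Real.pi / 2 < z → z < Real.pi → ∃ C κ0 : ℝ, 0 < κ0 ∧
      ∀ κ : ℝ, κ0 ≤ κ → |1 / 2 * germB (L / 2) z η κ| ≤ C * Real.exp (-(L * κ)) := by
    intro z η h1 h2
    obtain ⟨C, κ0, h3, h4⟩ := bnd_B η hL h1 h2
    refine ⟨1 / 2 * C, κ0, h3, fun κ hκ => ?_⟩
    rw [abs_mul, abs_of_pos (by norm_num : (0 : ℝ) < 1 / 2), mul_assoc]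
    exact mul_le_mul_of_nonneg_left (h4 κ hκ) (by norm_num)
  unfold gE
  by_cases c1 : x < Real.pi / 2
  · simp only [if_pos c1]
    exact bnd_B _ hL (by linarith) hy1
  · simp only [if_neg c1]
    by_cases c2 : y < Real.pi / 2
    · simp only [if_pos c2]
      exact bnd_B _ hL (by linarith) hx1
    · simp only [if_neg c2]
      by_cases c3 : x = Real.pi / 2
      · simp only [if_pos c3]
        exact half y 0 (by linarith) hy1
      · simp only [if_neg c3]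
        by_cases c4 : y = Real.pi / 2
        · simp only [if_pos c4]
          exact half x 0 (by linarith) hx1
        · simp only [if_neg c4]
          exact bnd_A hL (lt_of_le_of_ne (not_lt.1 c1) (Ne.symm c3)) hx1
            (lt_of_le_of_ne (not_lt.1 c2) (Ne.symm c4)) hy1

end Pool.Agent.QUD.H81
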